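import Pool.Agent.R629.NF.Conj

/-!
# A transcendence criterion for the modularity of abelian varieties of GL₂-type

Let `F` be a number field, for instance totally real, `A` an abelian variety over `F` of `GL₂(M)`-type
and `f` a Hilbert newform over `F` with Hecke eigenvalues `a_v` and character `ε`, `c_v = ε(v) q_v`, both
considered as elements of `M` by an embedding of the coefficient field of `f` in `M`.  Let `P_v` be the
characteristic polynomial of Frobenius at `v` of `A`.  It has rational coefficients, degree
`2 dim A = 2 [M : ℚ]` and roots of absolute value `√q_v` (Weil), and the roots of all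
`X² - τ(a_v) X + τ(c_v)`, `τ : M → ℂ`, have absolute value `√q_v` (Ramanujan conjecture, Blasius).
Therefore `L(A, s)` and the `L(f^τ, s)`, `τ : M → ℂ`, without the factors at the primes above a finite
set `S` of rational primes, have boundary values `l(t)` and `l_τ(t)` at almost all points `3/2 + it`.

The theorem says that `A` is associated to `f` up to finitely many Euler factors if and only if `l(t)`
is algebraic over the field generated by the `l_τ(t)`, `τ : M → ℂ`, the numbers `t` and `p^{-it}` and a
countable field, for almost all `t`; otherwise it is transcendental over all these fields, for almost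
all `t`.  There is no condition on the `f^τ`; some or all of them may be equal.
-/

set_option autoImplicit false

namespace Pool.Agent.Results.MP_326854_nt.AssociationCriterion

open MeasureTheory Filter Topology NumberField IsDedekindDomain Polynomial
open Pool.Agent.R629.NF

/-- The polynomial `X² - a_v X + c_v` with coefficients in `M`. -/
noncomputable def heckePoly {F : Type} [Field F] [NumberField F] {M : Type} [Field M]
    (a c : HeightOneSpectrum (𝓞 F) → M) (v : HeightOneSpectrum (𝓞 F)) : M[X] :=
  X ^ 2 - C (a v) * X + C (c v)

/-- The polynomials `τ(X² - a_v X + c_v)`. -/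
noncomputable def conjugate {F : Type} [Field F] [NumberField F] {M : Type} [Field M]
    (a c : HeightOneSpectrum (𝓞 F) → M) (τ : M →+* ℂ) (v : HeightOneSpectrum (𝓞 F)) : ℂ[X] :=
  (heckePoly a c v).map τ

/-- The polynomials `P_v` as polynomials with complex coefficients. -/
noncomputable def complexPoly {F : Type} [Field F] [NumberField F]
    (P : HeightOneSpectrum (𝓞 F) → ℚ[X]) (v : HeightOneSpectrum (𝓞 F)) : ℂ[X] :=
  (P v).map (Rat.castHom ℂ)

/-- **Criterion for the association of an abelian variety to a newform.**  The Euler products have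
boundary functions.  For all but finitely many rational primes `p` one has
`∏_{v | p} P_v(X^{f_v}) = ∏_τ ∏_{v | p} τ(X^{2 f_v} - a_v X^{f_v} + c_v)`, that is,
`L(A, s) = ∏_τ L(f^τ, s)` up to finitely many Euler factors, if and only if for some countable field `k`
and almost all `t` the boundary value `l(t)` of `L(A, s)` is algebraic over
`k(l_τ(t), t, p^{-it} : τ : M → ℂ, p prime)`.  Otherwise it is, for every countable field `k` and almost
all `t`, transcendental over this field. -/
theorem result (F : Type) [Field F] [NumberField F] (M : Type) [Field M] [NumberField M]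
    (P : HeightOneSpectrum (𝓞 F) → ℚ[X]) (a c : HeightOneSpectrum (𝓞 F) → M) (S : Finset ℕ)
    (hS : Unram F S)
    (hA : IsSys S (2 * Module.finrank ℚ M) (1 / 2) (complexPoly P))
    (hf : ∀ τ : M →+* ℂ, IsSys S 2 (1 / 2) (conjugate a c τ)) :
    ((∃ l : ℝ → ℂ, IsEdgeOf S (2 * Module.finrank ℚ M) (complexPoly P) (1 / 2) l) ∧
      ∀ τ : M →+* ℂ, ∃ l : ℝ → ℂ, IsEdgeOf S 2 (conjugate a c τ) (1 / 2) l) ∧
    ∀ (l : ℝ → ℂ) (lf : (M →+* ℂ) → ℝ → ℂ),
      IsEdgeOf S (2 * Module.finrank ℚ M) (complexPoly P) (1 / 2) l →
      (∀ τ : M →+* ℂ, IsEdgeOf S 2 (conjugate a c τ) (1 / 2) (lf τ)) →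
      ({p : Nat.Primes | (p : ℕ) ∉ S ∧
        above (complexPoly P) p ≠ ∏ τ : M →+* ℂ, above (conjugate a c τ) p}.Finite ↔
          DependentOn l lf) ∧
      (DependentOn l lf ∨ IndependentOf l lf) :=
  ⟨⟨exists_edgeOf hS hA, fun τ => exists_edgeOf hS (hf τ)⟩, fun _ _ hl hlf =>
    sys_vs_conj two_pos hS hA hf hl hlf⟩

end Pool.Agent.Results.MP_326854_nt.AssociationCriterion
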