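import Mathlib
import Pool.Agent.R384.Z.AbsH

/-!
# Representations of `GL_2`-type of the Galois groups of the totally real fields in the
# `2`-extensions of `ℚ`, potentially ordinary at `2`

Let `q` be a prime number that is `3` or `5` modulo `8`, and let `F₀` be a number field (for example a
totally real one) which is contained in a finite Galois extension `M₀ / ℚ` of degree a power of `2`,
unramified outside `2`, `q` and infinity. There is no condition on the structure of the Galois group of
`M₀ / ℚ`, and `F₀ / ℚ` need not be Galois.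

Let `E` be a finite extension of `ℚ_2` (or the fraction field of any Noetherian local domain with
finite residue field of characteristic `2`), and let `V` be a continuous irreducible two-dimensional
`E`-representation of `G_{F₀}` which is unramified outside `2`, `q` and residually unipotent.

Theorem: if `V` potentially contains a line at a place of `F₀` above `2`, then `V` is dihedral
(induced from a character of a quadratic extension of `F₀`) or its projective image is finite.

Let `A` be an abelian variety over `F₀` of `GL_2(M)`-type with good reduction outside `2`, `q`, let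
`λ` be a prime of `M` above `2` such that `V = V_λ(A)` is residually unipotent, and suppose that `V_λ(A)`
is potentially ordinary at a place above `2`, or that `A` has potentially multiplicative reduction
there. The Hodge–Tate weights of `V` are `0` and `1`, so that its projective image is not finite. So
`V` is dihedral, `A` has complex multiplication and is associated to a Hilbert newform. (This
deduction is not part of the formal proof.)
-/

set_option autoImplicit false

namespace Pool.Agent.Results.MP_326854_nt.PotentiallyOrdinaryAtTwo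

open Matrix IsLocalRing

/-- An algebraic closure of `ℚ`. -/
abbrev QBar : Type := AlgebraicClosure ℚ

/-- The absolute Galois group of `ℚ`, with its Krull topology. -/
abbrev AbsGal : Type := QBar ≃ₐ[ℚ] QBar

/-- The decomposition group of the place given by the embedding `ι` of `ℚ̄`. -/
def Dec {p : ℕ} [Fact p.Prime] (ι : QBar →ₐ[ℚ] PadicAlgCl p) : Set AbsGal :=
  {σ | ∃ τ : PadicAlgCl p ≃ₐ[ℚ_[p]] PadicAlgCl p, ∀ x, τ (ι x) = ι (σ x)}

/-- Its inertia group: the automorphisms which are trivial on the residue field. -/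
def Inr {p : ℕ} [Fact p.Prime] (ι : QBar →ₐ[ℚ] PadicAlgCl p) : Set AbsGal :=
  {σ | ∃ τ : PadicAlgCl p ≃ₐ[ℚ_[p]] PadicAlgCl p, (∀ x, τ (ι x) = ι (σ x)) ∧
    ∀ z : PadicAlgCl p, ‖z‖ ≤ 1 → ‖τ z - z‖ < 1}

/-- `N` is the Galois group of `ℚ̄ / M₀` for a finite Galois extension `M₀ / ℚ` whose degree is a
power of `2` and which is unramified outside `2`, `q` and infinity: `N` is a normal open subgroup of
index a power of `2` and contains the inertia groups of the primes other than `2` and `q`. -/
structure TwoExtension (q : ℕ) (N : Subgroup AbsGal) : Prop where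
  isOpen : IsOpen (N : Set AbsGal)
  normal : N.Normal
  index : ∃ a : ℕ, N.index = 2 ^ a
  unramified : ∀ (p : ℕ) [Fact p.Prime] (ι : QBar →ₐ[ℚ] PadicAlgCl p), p ≠ 2 → p ≠ q →
    ∀ σ ∈ (Inr ι : Set AbsGal), σ ∈ N

/-- The representation `ρ` of the absolute Galois group `H` of `F₀` is continuous, residually
unipotent and unramified outside `2` and `q`. -/
structure Admissible (q : ℕ) {H : Subgroup AbsGal} {A : Type} [CommRing A] [IsLocalRing A]
    [TopologicalSpace A] (ρ : H →* GL (Fin 2) A) : Prop where
  cont : ∀ i j, Continuous fun σ => (ρ σ : Matrix (Fin 2) (Fin 2) A) i j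
  unipotent : ∀ σ, ∃ m : ℕ, ∀ i j,
    (((ρ σ : Matrix (Fin 2) (Fin 2) A) - 1) ^ m) i j ∈ maximalIdeal A
  unramified : ∀ (p : ℕ) [Fact p.Prime] (ι : QBar →ₐ[ℚ] PadicAlgCl p), p ≠ 2 → p ≠ q →
    ∀ σ : H, (σ : AbsGal) ∈ Inr ι → ρ σ = 1

/-- The action of `σ` on `V = E ^ 2`. -/
noncomputable def act {H : Subgroup AbsGal} {A : Type} [CommRing A] (E : Type) [Field E]
    [Algebra A E] (ρ : H →* GL (Fin 2) A) (σ : H) (v : Fin 2 → E) : Fin 2 → E :=
  ((ρ σ : Matrix (Fin 2) (Fin 2) A).map (algebraMap A E)) *ᵥ v

/-- `V` is irreducible. -/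
def Irreducible {H : Subgroup AbsGal} {A : Type} [CommRing A] (E : Type) [Field E]
    [Algebra A E] (ρ : H →* GL (Fin 2) A) : Prop :=
  ∀ W : Submodule E (Fin 2 → E), (∀ σ, ∀ w ∈ W, act E ρ σ w ∈ W) → W = ⊥ ∨ W = ⊤

/-- `V` potentially contains a line on `D`: some nonzero vector of `V` is an eigenvector of all
elements of a subgroup `D'` of `H`, finitely many left cosets of which cover the elements of `H` which
are in `D`. -/
def PotentialLine {H : Subgroup AbsGal} {A : Type} [CommRing A] (E : Type) [Field E]
    [Algebra A E] (ρ : H →* GL (Fin 2) A) (D : Set AbsGal) : Prop :=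
  ∃ (D' : Subgroup H) (R : Set H) (v : Fin 2 → E), R.Finite ∧
    (∀ δ : H, (δ : AbsGal) ∈ D → ∃ r ∈ R, r⁻¹ * δ ∈ D') ∧ v ≠ 0 ∧
    ∀ δ ∈ D', ∃ c : E, act E ρ δ v = c • v

/-- The projective image is finite: an open normal subgroup acts by scalars. -/
def ProjectivelyFinite {H : Subgroup AbsGal} {A : Type} [CommRing A] (E : Type) [Field E]
    [Algebra A E] (ρ : H →* GL (Fin 2) A) : Prop :=
  ∃ S : Subgroup H, S.Normal ∧ S.FiniteIndex ∧ IsOpen (S : Set H) ∧
    ∀ σ ∈ S, ∃ c : E, ∀ w, act E ρ σ w = c • w

/-- `V` is dihedral: the absolute Galois group of a quadratic extension of `F₀` preserves a line. -/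
def Dihedral {H : Subgroup AbsGal} {A : Type} [CommRing A] (E : Type) [Field E]
    [Algebra A E] (ρ : H →* GL (Fin 2) A) : Prop :=
  ∃ (T : Subgroup H) (v : Fin 2 → E), T.index = 2 ∧ IsOpen (T : Set H) ∧ v ≠ 0 ∧
    ∀ σ ∈ T, ∃ c : E, act E ρ σ v = c • v

/-- **Irreducible two-dimensional representations which potentially contain a line at a place above
`2`.** -/
theorem result (q : ℕ) (hq : q.Prime) (hq8 : q % 8 = 3 ∨ q % 8 = 5)
    (H N : Subgroup AbsGal) (hNH : N ≤ H) (hN : TwoExtension q N)
    (A : Type) [CommRing A] [IsLocalRing A] [IsNoetherianRing A] [TopologicalSpace A]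
    (hA : IsAdic (maximalIdeal A)) (hfin : Finite (ResidueField A)) (h2 : (2 : A) ∈ maximalIdeal A)
    (E : Type) [Field E] [Algebra A E] [IsFractionRing A E]
    (ρ : H →* GL (Fin 2) A) (hρ : Admissible q ρ) (hirr : Irreducible E ρ)
    (ι : QBar →ₐ[ℚ] PadicAlgCl 2) (hline : PotentialLine E ρ (Dec ι)) :
    ProjectivelyFinite E ρ ∨ Dihedral E ρ := by
  obtain ⟨D', R, v, hRf, hR, hv, hD'⟩ := hline
  rcases Pool.Agent.Z384.fmHQ2 hq hq8 hNH hN.normal hN.index hN.isOpen
    (fun p _ ι hp hpq σ hσ => hN.unramified p ι hp hpq σ hσ) hA hfin h2 hρ.cont hρ.unipotent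
    (fun p _ ι hp hpq σ hσ => hρ.unramified p ι hp hpq σ hσ) ι hRf hR hirr hv hD' with h | h
  · exact Or.inl h
  · obtain ⟨T, h3, h4, h5⟩ := h
    exact Or.inr ⟨T, v, h3, h4, hv, h5⟩

end Pool.Agent.Results.MP_326854_nt.PotentiallyOrdinaryAtTwo
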